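import Pool.Agent.Helper30.KC.GoalsI
import Pool.Agent.Helper70.KC.EV

/-!
# Project KI (MP_bf413e_co), packet MW: cycles in a connected stuck set bound
-/

set_option autoImplicit false

namespace Pool.Agent.Helper59.KI

open scoped Classical
open Finset
open Pool.Agent.Helper94.KC
open Pool.Agent.Helper30.KC

theorem EW_mono {V : Type} [Fintype V] {T : Finset (Finset V)} {c c' : ℕ} (h : EW T c)
    (hc : c' ≤ c) : EW T c' := fun x w hw hl => h x w hw (lt_of_lt_of_le hl hc)

theorem mem_foldr {V : Type} (L : List (Finset (Finset V))) (t : Finset V)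
    (h : t ∈ L.foldr symmDiff ∅) : ∃ D ∈ L, t ∈ D := by
  induction L with
  | nil => simp at h
  | cons D L ih =>
    rw [List.foldr_cons, Finset.mem_symmDiff] at h
    rcases h with h | h
    · exact ⟨D, by simp, h.1⟩
    · obtain ⟨D', h1, h2⟩ := ih h.1
      exact ⟨D', by simp [h1], h2⟩

theorem exists_cross {V : Type} {G : SimpleGraph V} (W : Finset V) {a b : V} (p : G.Walk a b)
    (ha : a ∈ W) (hb : b ∉ W) : ∃ x u, x ∈ W ∧ u ∉ W ∧ G.Adj x u := by
  induction p with
  | nil => exact (hb ha).elim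
  | @cons u v w h p ih =>
    by_cases hv : v ∈ W
    · exact ih hv hb
    · exact ⟨u, v, ha, hv, h⟩

theorem pMW (hBB : StmtBB) (hUH : StmtUH) (hMK : StmtMK) (hSC : StmtSC) (hCA : StmtCA)
    (hCB : StmtCB) : StmtMW := by
  intro V _ T W ρ hT hS hD hE x₀ w hw x hx hfar hnear z hz hzE
  obtain ⟨ev1, -, -, -, -, ev6⟩ := Pool.Agent.Helper70.KC.ev V T hT
  have hE4 : EW T (2 * ρ + 4) := EW_mono hE (by omega)
  have hxW : x ∉ W := hnear x (by simp)
  obtain ⟨a, ha⟩ := hS.ne
  obtain ⟨p⟩ := hT.conn.preconnected a x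
  obtain ⟨x', u, hx', hu, hxu⟩ := exists_cross W p ha hxW
  obtain ⟨uh1, uh2, uh3, uh4⟩ := hUH V T W hT hS
  obtain ⟨h, hh, h7, huh⟩ := uh2 x' hx' u hu hxu
  have huN : u ∈ NK T h := by
    rw [NK, Finset.mem_filter]
    exact ⟨Finset.mem_univ _, h, SimpleGraph.Reachable.refl _, h7, huh⟩
  obtain ⟨HU, hbd⟩ := hSC V T W ρ h h u hT hS hD hE4 h7 hh hu huh.symm huN
  obtain ⟨mk1, ⟨mk2, -⟩, mk3, -, -, mk4⟩ := hMK V T W h hT hS h7
  obtain ⟨L, hL, hN⟩ := hBB V T hT h (ρ + 1) (EW_mono hE (by omega)) (mK T W h) mk4 mk3 (by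
    intro e he v hv
    obtain ⟨x1, u1, rfl, h1, h2, h3, h4, h5⟩ := mk1 e he
    have hd := hD h x1 h5
    rcases Finset.mem_insert.mp hv with rfl | hv
    · omega
    · rw [Finset.mem_singleton] at hv
      subst hv
      have := hT.conn.dist_triangle (u := h) (v := x1) (w := v)
      have h6 : (sk T).dist x1 v = 1 := SimpleGraph.dist_eq_one_iff_adj.mpr h4
      omega)
  have hSub : L.foldr symmDiff ∅ ⊆ T := by
    intro t ht
    obtain ⟨D, hDL, htD⟩ := mem_foldr L t ht
    obtain ⟨y, w', -, -, -, hdisc⟩ := hN D hDL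
    exact hdisc.sub htD
  have hX : symmDiff (symmDiff (trW T W) (Db T W h)) (L.foldr symmDiff ∅) ⊆ T := by
    intro t ht
    rw [Finset.mem_symmDiff, Finset.mem_symmDiff] at ht
    rcases ht with ⟨⟨h1, -⟩ | ⟨h1, -⟩, -⟩ | ⟨h1, -⟩
    · exact (Finset.mem_filter.mp h1).1
    · exact (Finset.mem_filter.mp h1).1
    · exact hSub h1
  have hbX : bd T (symmDiff (symmDiff (trW T W) (Db T W h)) (L.foldr symmDiff ∅)) = ∅ := by
    rw [ev1, ev1, hL, hbd, mk2, symmDiff_symmDiff_cancel_left, symmDiff_self]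
    rfl
  rcases ev6 _ hX hbX with h0 | h0
  · refine hCA V T W ρ h L hT hD hE h7 HU hN ?_ z ?_ hzE ?_
    · intro t ht
      by_contra hcon
      have hts : t ∉ L.foldr symmDiff ∅ := fun h' => hcon (mem_foldr L t h')
      have htD : t ∉ Db T W h := by
        intro h'
        have h1 := (Finset.mem_filter.mp h').2.1
        have h2 := (Finset.mem_filter.mp ht).2
        rw [Finset.inter_eq_left.mpr h2, hT.card t (Finset.mem_filter.mp ht).1] at h1
        omega
      have : t ∈ symmDiff (symmDiff (trW T W) (Db T W h)) (L.foldr symmDiff ∅) := by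
        rw [Finset.mem_symmDiff, Finset.mem_symmDiff]
        exact Or.inl ⟨Or.inl ⟨ht, htD⟩, hts⟩
      rw [h0] at this
      exact absurd this (Finset.notMem_empty _)
    · intro e he
      exact (Finset.mem_filter.mp (hz he)).1
    · intro e he v hv _
      exact (Finset.mem_filter.mp (hz he)).2 hv
  · exfalso
    obtain ⟨t, ht, hxt⟩ := hT.cover x
    have hno : ∀ v ∈ t, v ∉ W := by
      intro v hv
      apply hnear
      by_cases hvx : x = v
      · subst hvx; simp
      · have : (sk T).Adj x v := ⟨hvx, t, ht, hxt, hv⟩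
        rw [SimpleGraph.dist_eq_one_iff_adj.mpr this]
    have ht1 : t ∉ trW T W := by
      intro h'
      exact hno x hxt ((Finset.mem_filter.mp h').2 hxt)
    have ht2 : t ∉ Db T W h := by
      intro h'
      have h1 := (Finset.mem_filter.mp h').2.1
      have : t ∩ W = ∅ := by
        rw [Finset.eq_empty_iff_forall_notMem]
        intro v hv
        exact hno v (Finset.mem_inter.mp hv).1 (Finset.mem_inter.mp hv).2
      rw [this] at h1
      simp at h1
    have ht3 : t ∈ symmDiff (symmDiff (trW T W) (Db T W h)) (L.foldr symmDiff ∅) := by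
      rw [h0]; exact ht
    rw [Finset.mem_symmDiff, Finset.mem_symmDiff] at ht3
    rcases ht3 with ⟨⟨h1, -⟩ | ⟨h1, -⟩, -⟩ | ⟨h1, -⟩
    · exact ht1 h1
    · exact ht2 h1
    · obtain ⟨D, hDL, htD⟩ := mem_foldr L t h1
      exact hCB V T ρ h hT x₀ w hw x hx (hfar h h7) D (hN D hDL) t htD hxt

end Pool.Agent.Helper59.KI
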